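import Pool.Agent.Helper74.UB.Goals4

/-! GEO of project UB. -/

namespace Pool.Agent.Helper34.UB

open Finset Equiv Helper28.VF Pool.Agent.Helper74.UB
open scoped Classical

section
variable {V D E F E' F' : Type} [Fintype V] [Fintype D] [Fintype E] [Fintype F]
  [Fintype E'] [Fintype F']

theorem strip_uniq (M : PM D V E F) (row : V → ℤ) (d : D) (y z : ℤ)
    (h1 : InStrip M row d y) (h2 : InStrip M row d z) : y = z := by
  obtain ⟨_, ⟨e1, he1, hr1⟩, ⟨e2, he2, hr2⟩⟩ := h1
  have a := h2.1 e1 he1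
  have b := h2.1 e2 he2
  omega

theorem strip_flip (M : PM D V E F) (row : V → ℤ) (h : ℤ) (d : D) (y : ℤ) :
    InStrip M (fun v => h - row v) d y ↔ InStrip M row d (h - 1 - y) := by
  unfold InStrip
  constructor
  · rintro ⟨a, ⟨e, he, hr⟩, ⟨e', he', hr'⟩⟩
    refine ⟨fun x hx => ?_, ⟨e', he', ?_⟩, ⟨e, he, ?_⟩⟩
    · have := a x hx
      dsimp only at this
      omega
    · dsimp only at hr'
      omega
    · dsimp only at hr
      omega
  · rintro ⟨a, ⟨e, he, hr⟩, ⟨e', he', hr'⟩⟩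
    refine ⟨fun x hx => ?_, ⟨e', he', ?_⟩, ⟨e, he, ?_⟩⟩
    · have := a x hx
      dsimp only
      omega
    · dsimp only
      omega
    · dsimp only
      omega

/-- two pairs without common vertex -/
def Apart {V : Type} (p q : V × V) : Prop :=
  p.1 ≠ q.1 ∧ p.1 ≠ q.2 ∧ p.2 ≠ q.1 ∧ p.2 ≠ q.2

theorem Apart.symm {V : Type} {p q : V × V} (h : Apart p q) : Apart q p :=
  ⟨h.1.symm, h.2.2.1.symm, h.2.1.symm, h.2.2.2.symm⟩

theorem apart_of_row {V : Type} (row : V → ℤ) (p q : V × V) (a : ℤ)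
    (h1 : row p.1 < a) (h2 : row p.2 < a) (h3 : a ≤ row q.1) (h4 : a ≤ row q.2) : Apart p q := by
  refine ⟨?_, ?_, ?_, ?_⟩ <;> intro e <;> have := congrArg row e <;> omega

theorem comb (row : V → ℤ) (M : PM D V E F) (I : F → Prop) (M' : PM (DC M I) (VC V I) E' F')
    (C A : Finset (VC V I)) (t b : ℤ) (hbt : b ≤ t)
    (S1 S2 : Finset D) (P1 P2 : Finset (V × V)) (Sf : ℤ → Finset D) (Pf : ℤ → Finset (V × V))
    (hS1 : ∀ d ∈ S1, Sum.inl d ∈ nb M' C A ∧ (InStrip M row d t ∨ InStrip M row d (t + 1)))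
    (hS2 : ∀ d ∈ S2, Sum.inl d ∈ nb M' C A ∧
      (InStrip M row d (b - 1) ∨ InStrip M row d (b - 2)))
    (hSf : ∀ y, b ≤ y → y < t → ∀ d ∈ Sf y, Sum.inl d ∈ nb M' C A ∧ InStrip M row d y)
    (hP1 : ∀ p ∈ P1, Sum.inl p.1 ∈ C ∧ Sum.inl p.2 ∈ C ∧ SqE M' (Sum.inl p.1) (Sum.inl p.2))
    (hP2 : ∀ p ∈ P2, Sum.inl p.1 ∈ C ∧ Sum.inl p.2 ∈ C ∧ SqE M' (Sum.inl p.1) (Sum.inl p.2))
    (hPf : ∀ y, b ≤ y → y < t → ∀ p ∈ Pf y, Sum.inl p.1 ∈ C ∧ Sum.inl p.2 ∈ C ∧
      SqE M' (Sum.inl p.1) (Sum.inl p.2) ∧ row p.1 = y ∧ row p.2 = y + 1)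
    (hPf1 : ∀ y, b ≤ y → y < t → (Pf y).card ≤ 1)
    (hPf2 : ∀ y, b ≤ y → y < t → ¬ Even y → Pf y = ∅)
    (hr1 : ∀ p ∈ P1, t ≤ row p.1 ∧ t ≤ row p.2 ∧ (¬ Even t → t + 1 ≤ row p.1 ∧ t + 1 ≤ row p.2))
    (hr2 : ∀ p ∈ P2, row p.1 ≤ b ∧ row p.2 ≤ b ∧ (Even b → row p.1 ≤ b - 1 ∧ row p.2 ≤ b - 1))
    (hd1 : ∀ p ∈ P1, ∀ q ∈ P1, p ≠ q → Apart p q)
    (hd2 : ∀ p ∈ P2, ∀ q ∈ P2, p ≠ q → Apart p q) :
    ∃ P, Pairs M' C P ∧
      S1.card + S2.card + ∑ y ∈ Ico b t, (Sf y).card +
        (P1.card + P2.card + ∑ y ∈ Ico b t, (Pf y).card) ≤ (nb M' C A).card + P.card := by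
  -- darts
  have dS12 : Disjoint S1 S2 := by
    rw [Finset.disjoint_left]
    intro d h1 h2
    have a := (hS1 d h1).2
    have c := (hS2 d h2).2
    rcases a with a | a <;> rcases c with c | c <;>
      have := strip_uniq M row d _ _ a c <;> omega
  have dS3 : Disjoint (S1 ∪ S2) ((Ico b t).biUnion Sf) := by
    rw [Finset.disjoint_left]
    intro d h1 h2
    rw [Finset.mem_biUnion] at h2
    obtain ⟨y, hy, h2⟩ := h2
    rw [Finset.mem_Ico] at hy
    have c := (hSf y hy.1 hy.2 d h2).2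
    rw [Finset.mem_union] at h1
    rcases h1 with h1 | h1
    · rcases (hS1 d h1).2 with a | a <;> have := strip_uniq M row d _ _ a c <;> omega
    · rcases (hS2 d h1).2 with a | a <;> have := strip_uniq M row d _ _ a c <;> omega
  have dSf : ∀ x ∈ Ico b t, ∀ y ∈ Ico b t, x ≠ y → Disjoint (Sf x) (Sf y) := by
    intro x hx y hy hxy
    rw [Finset.mem_Ico] at hx hy
    rw [Finset.disjoint_left]
    intro d h1 h2
    exact hxy (strip_uniq M row d _ _ (hSf x hx.1 hx.2 d h1).2 (hSf y hy.1 hy.2 d h2).2)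
  have cS : S1.card + S2.card + ∑ y ∈ Ico b t, (Sf y).card ≤ (nb M' C A).card := by
    rw [← Finset.card_union_of_disjoint dS12, ← Finset.card_biUnion dSf,
      ← Finset.card_union_of_disjoint dS3]
    apply Finset.card_le_card_of_injOn (fun d => (Sum.inl d : DC M I))
    · intro d hd
      rw [Finset.mem_coe, Finset.mem_union, Finset.mem_union, Finset.mem_biUnion] at hd
      rcases hd with (hd | hd) | ⟨y, hy, hd⟩
      · exact (hS1 d hd).1
      · exact (hS2 d hd).1
      · rw [Finset.mem_Ico] at hy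
        exact (hSf y hy.1 hy.2 d hd).1
    · intro x _ y _ hxy
      exact Sum.inl_injective hxy
  -- pairs
  have a12 : ∀ p ∈ P1, ∀ q ∈ P2, Apart p q := by
    intro p hp q hq
    have h1 := hr1 p hp
    have h2 := hr2 q hq
    apply Apart.symm
    by_cases e : Even t
    · by_cases hlt : b < t
      · exact apart_of_row row q p t (by omega) (by omega) h1.1 h1.2.1
      · have hbt' : b = t := by omega
        have h3 := h2.2.2 (hbt' ▸ e)
        exact apart_of_row row q p t (by omega) (by omega) h1.1 h1.2.1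
    · have h3 := h1.2.2 e
      exact apart_of_row row q p (t + 1) (by omega) (by omega) h3.1 h3.2
  have evf : ∀ y, b ≤ y → y < t → ∀ p ∈ Pf y, y % 2 = 0 := by
    intro y h1 h2 p hp
    by_contra hcon
    have : ¬ Even y := by
      rw [Int.even_iff]
      exact hcon
    rw [hPf2 y h1 h2 this] at hp
    simp at hp
  have a1f : ∀ p ∈ P1, ∀ y, b ≤ y → y < t → ∀ q ∈ Pf y, Apart p q := by
    intro p hp y hy1 hy2 q hq
    have h1 := hr1 p hp
    have h2 := hPf y hy1 hy2 q hq
    have h3 := evf y hy1 hy2 q hq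
    apply Apart.symm
    by_cases e : Even t
    · have e' := Int.even_iff.1 e
      exact apart_of_row row q p t (by omega) (by omega) h1.1 h1.2.1
    · have h4 := h1.2.2 e
      exact apart_of_row row q p (t + 1) (by omega) (by omega) h4.1 h4.2
  have a2f : ∀ p ∈ P2, ∀ y, b ≤ y → y < t → ∀ q ∈ Pf y, Apart p q := by
    intro p hp y hy1 hy2 q hq
    have h1 := hr2 p hp
    have h2 := hPf y hy1 hy2 q hq
    have h3 := evf y hy1 hy2 q hq
    by_cases e : Even b
    · have h4 := h1.2.2 e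
      exact apart_of_row row p q b (by omega) (by omega) (by omega) (by omega)
    · have e' : b % 2 ≠ 0 := fun h => e (Int.even_iff.2 h)
      exact apart_of_row row p q (b + 1) (by omega) (by omega) (by omega) (by omega)
  have aff : ∀ x, b ≤ x → x < t → ∀ p ∈ Pf x, ∀ y, b ≤ y → y < t → ∀ q ∈ Pf y, p ≠ q →
      Apart p q := by
    intro x hx1 hx2 p hp y hy1 hy2 q hq hpq
    have h1 := hPf x hx1 hx2 p hp
    have h2 := hPf y hy1 hy2 q hq
    have h3 := evf x hx1 hx2 p hp
    have h4 := evf y hy1 hy2 q hq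
    rcases lt_trichotomy x y with hl | hl | hl
    · exact apart_of_row row p q y (by omega) (by omega) (by omega) (by omega)
    · subst hl
      exact absurd (Finset.card_le_one.1 (hPf1 x hx1 hx2) p hp q hq) hpq
    · apply Apart.symm
      exact apart_of_row row q p x (by omega) (by omega) (by omega) (by omega)
  have nap : ∀ p : V × V, ¬ Apart p p := fun p h => h.1 rfl
  have dP12 : Disjoint P1 P2 := by
    rw [Finset.disjoint_left]
    intro p h1 h2
    exact nap p (a12 p h1 p h2)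
  have dP3 : Disjoint (P1 ∪ P2) ((Ico b t).biUnion Pf) := by
    rw [Finset.disjoint_left]
    intro p h1 h2
    rw [Finset.mem_biUnion] at h2
    obtain ⟨y, hy, h2⟩ := h2
    rw [Finset.mem_Ico] at hy
    rw [Finset.mem_union] at h1
    rcases h1 with h1 | h1
    · exact nap p (a1f p h1 y hy.1 hy.2 p h2)
    · exact nap p (a2f p h1 y hy.1 hy.2 p h2)
  have dPf : ∀ x ∈ Ico b t, ∀ y ∈ Ico b t, x ≠ y → Disjoint (Pf x) (Pf y) := by
    intro x hx y hy hxy
    rw [Finset.mem_Ico] at hx hy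
    rw [Finset.disjoint_left]
    intro p h1 h2
    have e1 := (hPf x hx.1 hx.2 p h1).2.2.2.1
    have e2 := (hPf y hy.1 hy.2 p h2).2.2.2.1
    exact hxy (e1.symm.trans e2)
  set Pa : Finset (V × V) := P1 ∪ P2 ∪ (Ico b t).biUnion Pf with hPa
  have cP : Pa.card = P1.card + P2.card + ∑ y ∈ Ico b t, (Pf y).card := by
    rw [hPa, Finset.card_union_of_disjoint dP3, Finset.card_union_of_disjoint dP12,
      Finset.card_biUnion dPf]
  have memPa : ∀ p ∈ Pa, Sum.inl p.1 ∈ C ∧ Sum.inl p.2 ∈ C ∧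
      SqE M' (Sum.inl p.1) (Sum.inl p.2) := by
    intro p hp
    rw [hPa, Finset.mem_union, Finset.mem_union, Finset.mem_biUnion] at hp
    rcases hp with (hp | hp) | ⟨y, hy, hp⟩
    · exact hP1 p hp
    · exact hP2 p hp
    · rw [Finset.mem_Ico] at hy
      have := hPf y hy.1 hy.2 p hp
      exact ⟨this.1, this.2.1, this.2.2.1⟩
  have disPa : ∀ p ∈ Pa, ∀ q ∈ Pa, p ≠ q → Apart p q := by
    intro p hp q hq hpq
    rw [hPa, Finset.mem_union, Finset.mem_union, Finset.mem_biUnion] at hp hq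
    rcases hp with (hp | hp) | ⟨y, hy, hp⟩ <;> rcases hq with (hq | hq) | ⟨z, hz, hq⟩
    · exact hd1 p hp q hq hpq
    · exact a12 p hp q hq
    · rw [Finset.mem_Ico] at hz
      exact a1f p hp z hz.1 hz.2 q hq
    · exact (a12 q hq p hp).symm
    · exact hd2 p hp q hq hpq
    · rw [Finset.mem_Ico] at hz
      exact a2f p hp z hz.1 hz.2 q hq
    · rw [Finset.mem_Ico] at hy
      exact (a1f q hq y hy.1 hy.2 p hp).symm
    · rw [Finset.mem_Ico] at hy
      exact (a2f q hq y hy.1 hy.2 p hp).symm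
    · rw [Finset.mem_Ico] at hy hz
      exact aff y hy.1 hy.2 p hp z hz.1 hz.2 q hq hpq
  have inj : Function.Injective (fun p : V × V => ((Sum.inl p.1, Sum.inl p.2) :
      VC V I × VC V I)) := by
    intro p q hpq
    simp only [Prod.mk.injEq, Sum.inl.injEq] at hpq
    exact Prod.ext hpq.1 hpq.2
  refine ⟨Pa.image (fun p => (Sum.inl p.1, Sum.inl p.2)), ⟨?_, ?_⟩, ?_⟩
  · intro p hp
    rw [Finset.mem_image] at hp
    obtain ⟨q, hq, rfl⟩ := hp
    exact memPa q hq
  · intro p hp q hq hpq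
    rw [Finset.mem_image] at hp hq
    obtain ⟨p', hp', rfl⟩ := hp
    obtain ⟨q', hq', rfl⟩ := hq
    have hne : p' ≠ q' := fun e => hpq (by rw [e])
    have := disPa p' hp' q' hq' hne
    refine ⟨?_, ?_, ?_, ?_⟩ <;> intro e <;> have e' := Sum.inl_injective e
    · exact this.1 e'
    · exact this.2.1 e'
    · exact this.2.2.1 e'
    · exact this.2.2.2 e'
  · rw [Finset.card_image_of_injective _ inj, cP]
    omega

end

theorem nr_flip {V J : Type} [Fintype V] (row : V → ℤ) (O : Finset (V ⊕ J)) (h b : ℤ) :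
    nr (fun v => h - row v) O (h - b + 1) = nr row O (b - 1) := by
  unfold nr
  congr 1
  ext v
  simp only [Finset.mem_filter, Finset.mem_univ, true_and]
  apply and_congr_right
  intro _
  omega

theorem topC_of (hTS : StmtTopS) (hTT : StmtTopT) {K h : ℕ} {V D E F E' F' : Type} [Fintype V]
    [Fintype D] [Fintype E] [Fintype F] [Fintype E'] [Fintype F'] {L : Lay V}
    {f : ℤ → ZMod (3 * 2 ^ K) → V} {M : PM D V E F} {dE dW : V → D} {dU dN : V → V → D}
    {I : F → Prop} {M' : PM (DC M I) (VC V I) E' F'} {O Q A : Finset (VC V I)} {t : ℤ}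
    (H : TopH K h L f M dE dW dU dN I M' O Q A t) : TopC L.row M I M' O A t := by
  by_cases e : Even t
  · exact hTS K h V D E F E' F' L f M dE dW dU dN I M' O Q A t H e
  · exact hTT K h V D E F E' F' L f M dE dW dU dN I M' O Q A t H e

theorem geo (hTS : StmtTopS) (hTT : StmtTopT) (hIC : StmtIntC) (hBF : StmtBaseF)
    (hFl : StmtFlip) (hTp : StmtTpF) : StmtGeo := by
  intro K h V D E F E' F' _ _ _ _ _ _ L f M dE dW dU dN I M' y0 y1 c v₀ A Q X T R₁ R₂ hS s C hs
    hC h1 h2 hhf hI t b ht hb hb2 hth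
  obtain ⟨B1, B2, B3, B4, B5, B6, B7, B8, B9⟩ :=
    hBF K h V D E F E' F' L f M dE dW dU dN I M' y0 y1 c v₀ A Q hS.base
  obtain ⟨⟨T1, T2, _⟩, ⟨T3, T4', _⟩, _, _⟩ := hTp V {q : F // I q} L.row y0 (A s)
  obtain ⟨_, ⟨T5, T6, _⟩, _, _⟩ := hTp V {q : F // I q} L.row y1 (A s)
  obtain ⟨⟨w1, hw1, hw1'⟩, _⟩ := B9 s hI
  have hbt : b ≤ t := by
    have := T6 w1 hw1
    omega
  have hy : y1 ≤ y0 + 1 := by
    rcases hS.base.start with h | h <;> omega
  have hQ1 : R₁.p s 0 ∈ Q s := hC.sub h1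
  have hQ2 : R₂.p s 0 ∈ Q s := hC.sub h2
  obtain ⟨e1a, i1, hi1, hi1'⟩ := hS.e1 s hs hQ1 (by rw [← ht]; omega)
  obtain ⟨e2a, i2, hi2, hi2'⟩ := hS.e2 s hs hQ2 (by rw [← hb]; omega)
  obtain ⟨x0, hx0⟩ := hS.xx
  have hXd : ∀ u ∈ X, u ∉ C := by
    intro u hu huC
    exact Finset.disjoint_left.1 (hS.col.disj s hs.le) (hC.sub huC) hu
  have hodd : (h : ℤ) % 2 = 1 := by
    have := hS.base.host.hodd
    obtain ⟨k, hk⟩ := this
    omega
  -- top
  have HT : TopH K h L f M dE dW dU dN I M' C (Q s) (A s) t :=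
    { host := hS.base.host
      lm := hS.base.lm
      cone := hS.base.cone
      t0 := by omega
      t2 := hth
      sq := fun d hd => ⟨(B4 d hd).1, y0, by omega, (B4 d hd).2.1⟩
      cen := B1 s
      sub := hC.sub
      dis := hS.base.fire.disj s s
      closed := hC.closed
      rA := fun v hv => by rw [ht]; exact T2 v hv
      rQ := fun v hv => by rw [ht]; exact (B8 s v hv).1
      ev := by
        intro u hu v huv hr
        rcases hS.base.fire.spread s u hu _ huv with hh | hh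
        · exfalso
          have := (hTp V {q : F // I q} L.row y0 (A (s + 1))).1.2.1 v hh
          omega
        · exact hh
      hd := ⟨i1, by
        constructor
        · rw [ht]; exact hi1' hI
        · rw [ht, ← hi1]; exact h1⟩
      col := ⟨x0, fun r hr1 hr2 => hXd _ (hx0 r hr1 hr2)⟩ }
  have HTC := topC_of hTS hTT HT
  -- bottom
  obtain ⟨Fh, Fl⟩ := hFl K h V L f hS.base.host
  have HB : TopH K h (L.flip h) (flipF h f) M (fun v => dW (L.e.symm v))
      (fun v => dE (L.e.symm v)) (fun v k => dN k v) (fun v k => dU k v) I M' C (Q s) (A s)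
      ((h : ℤ) - b) :=
    { host := Fh
      lm := Fl D E F M dE dW dU dN hS.base.lm
      cone := hS.base.cone
      t0 := by omega
      t2 := by omega
      sq := fun d hd => ⟨(B4 d hd).1, (h : ℤ) - 1 - y0, by omega, by
        have := (B4 d hd).2.1
        change InStrip M (fun v => (h : ℤ) - L.row v) d _
        rw [strip_flip]
        have e : (h : ℤ) - 1 - (h - 1 - y0) = y0 := by ring
        rw [e]
        exact this⟩
      cen := B1 s
      sub := hC.sub
      dis := hS.base.fire.disj s s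
      closed := hC.closed
      rA := fun v hv => by
        have := T6 v hv
        change (h : ℤ) - L.row v ≤ h - b
        omega
      rQ := fun v hv => by
        have := (B8 s v hv).2
        change (h : ℤ) - L.row v ≤ h - b + 1
        omega
      ev := by
        intro u hu v huv hr
        change (h : ℤ) - L.row v = h - b + 1 at hr
        rcases hS.base.fire.spread s u hu _ huv with hh | hh
        · exfalso
          have := (hTp V {q : F // I q} L.row y1 (A (s + 1))).2.1.2.1 v hh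
          omega
        · exact hh
      hd := ⟨-i2, by
        constructor
        · have e : flipF h f ((h : ℤ) - b) (-i2) = f b i2 := by
            unfold flipF
            rw [neg_neg]
            congr 1
            ring
          rw [e, hb]
          exact hi2' hI
        · have e : flipF h f ((h : ℤ) - b + 1) (-i2) = f (b - 1) i2 := by
            unfold flipF
            rw [neg_neg]
            congr 1
            ring
          rw [e, hb, ← hi2]
          exact h2⟩
      col := ⟨-x0, fun r hr1 hr2 => by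
        have e : flipF h f r (-x0) = f ((h : ℤ) - r) x0 := by
          unfold flipF
          rw [neg_neg]
        rw [e]
        have e2 : (h : ℤ) - r = ((h - r : ℕ) : ℤ) := by omega
        rw [e2]
        exact hXd _ (hx0 (h - r) (by omega) (by omega))⟩ }
  have HBC := topC_of hTS hTT HB
  obtain ⟨S1, P1, a1, a2, a3, a4, a5, a6⟩ := HTC
  obtain ⟨S2, P2, b1, b2, b3, b4, b5, b6⟩ := HBC
  change ∀ d ∈ S2, Sum.inl d ∈ nb M' C (A s) ∧
    (InStrip M (fun v => (h : ℤ) - L.row v) d (h - b) ∨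
      InStrip M (fun v => (h : ℤ) - L.row v) d (h - b + 1)) at b1
  -- intermediate
  have hint : ∀ y : ℤ, ∃ (S : Finset D) (P : Finset (V × V)), b ≤ y → y < t →
      (∀ d ∈ S, Sum.inl d ∈ nb M' C (A s) ∧ InStrip M L.row d y) ∧
      (∀ p ∈ P, Sum.inl p.1 ∈ C ∧ Sum.inl p.2 ∈ C ∧ SqE M' (Sum.inl p.1) (Sum.inl p.2) ∧
        L.row p.1 = y ∧ L.row p.2 = y + 1) ∧ P.card ≤ 1 ∧ (¬ Even y → P = ∅) ∧
      1 + (if Even y then 1 else 0) ≤ S.card + P.card := by
    intro y
    by_cases hy : b ≤ y ∧ y < t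
    · obtain ⟨S, P, q⟩ := hIC K h V D E F E' F' L f M dE dW dU dN I M' y0 y1 c v₀ A Q X T R₁ R₂
        hS s C hs hC h1 h2 hhf y (by rw [← hb]; omega) (by rw [← ht]; omega)
      exact ⟨S, P, fun _ _ => q⟩
    · exact ⟨∅, ∅, fun h1 h2 => absurd ⟨h1, h2⟩ hy⟩
  choose Sf Pf hint using hint
  obtain ⟨P, hP1, hP2⟩ := comb L.row M I M' C (A s) t b hbt S1 S2 P1 P2 Sf Pf a1
    (by
      intro d hd
      refine ⟨(b1 d hd).1, ?_⟩
      rcases (b1 d hd).2 with q | q
      · left
        rw [strip_flip] at q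
        have e : (h : ℤ) - 1 - (h - b) = b - 1 := by ring
        rwa [e] at q
      · right
        rw [strip_flip] at q
        have e : (h : ℤ) - 1 - (h - b + 1) = b - 2 := by ring
        rwa [e] at q)
    (fun y hy1 hy2 => (hint y hy1 hy2).1) a2 b2 (fun y hy1 hy2 => (hint y hy1 hy2).2.1)
    (fun y hy1 hy2 => (hint y hy1 hy2).2.2.1) (fun y hy1 hy2 => (hint y hy1 hy2).2.2.2.1)
    (by
      intro p hp
      by_cases e : Even t
      · have := a3 e p hp
        exact ⟨by omega, by omega, fun h => absurd e h⟩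
      · have := a4 e p hp
        exact ⟨by omega, by omega, fun _ => ⟨by omega, by omega⟩⟩)
    (by
      intro p hp
      by_cases e : Even ((h : ℤ) - b)
      · have hh : ∀ v, (L.flip h).row v = h - L.row v := fun v => rfl
        have := b3 e p hp
        rw [hh, hh] at this
        have e' := Int.even_iff.1 e
        refine ⟨by omega, by omega, fun hev => ?_⟩
        have e'' := Int.even_iff.1 hev
        omega
      · have hh : ∀ v, (L.flip h).row v = h - L.row v := fun v => rfl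
        have := b4 e p hp
        rw [hh, hh] at this
        exact ⟨by omega, by omega, fun _ => ⟨by omega, by omega⟩⟩)
    a5 b5
  refine ⟨P, hP1, ?_⟩
  have hnr : nr (L.flip h).row C ((h : ℤ) - b + 1) = nr L.row C (b - 1) :=
    nr_flip L.row C h b
  rw [hnr] at b6
  have hsum : ∑ y ∈ Ico b t, (1 + (if Even y then 1 else 0)) ≤
      ∑ y ∈ Ico b t, (Sf y).card + ∑ y ∈ Ico b t, (Pf y).card := by
    rw [← Finset.sum_add_distrib]
    apply Finset.sum_le_sum
    intro y hy
    rw [Finset.mem_Ico] at hy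
    exact (hint y hy.1 hy.2).2.2.2.2
  rw [Finset.sum_add_distrib, Finset.sum_const, smul_eq_mul, mul_one, Int.card_Ico,
    ← Finset.card_filter] at hsum
  have hto : ((t - b).toNat : ℤ) = t - b := Int.toNat_of_nonneg (by omega)
  omega

end Pool.Agent.Helper34.UB
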