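import Pool.Agent.Helper74.UB.Goals3

/-! LAYPM of project UB. -/

namespace Pool.Agent.Helper34.UB

open Finset Equiv Helper28.VF Pool.Agent.Helper74.UB
open scoped Classical

theorem al_al {V : Type} (L : Lay V) (d : DL L) : L.al (L.al d) = d := by
  rcases d with ⟨v, b⟩ | ⟨p, b⟩ <;> simp [Lay.al]

theorem al_ne {V : Type} (L : Lay V) (d : DL L) : L.al d ≠ d := by
  rcases d with ⟨v, b⟩ | ⟨p, b⟩ <;> simp [Lay.al]

/-- the edge of a dart -/
def edg {V : Type} (L : Lay V) : DL L → V ⊕ {p : V × V // L.up p.1 p.2}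
  | Sum.inl (v, _) => Sum.inl v
  | Sum.inr (p, _) => Sum.inr p

theorem edg_iff {V : Type} (L : Lay V) (d e : DL L) :
    edg L d = edg L e ↔ e = d ∨ e = L.al d := by
  rcases d with ⟨v, b⟩ | ⟨p, b⟩ <;> rcases e with ⟨w, c⟩ | ⟨q, c⟩
  · simp only [edg, Lay.al, Equiv.coe_fn_mk, Sum.inl.injEq, Prod.mk.injEq]
    constructor
    · rintro rfl
      cases b <;> cases c <;> simp
    · rintro (⟨h, _⟩ | ⟨h, _⟩) <;> exact h.symm
  · simp [edg, Lay.al]
  · simp [edg, Lay.al]
  · simp only [edg, Lay.al, Equiv.coe_fn_mk, Sum.inr.injEq, Prod.mk.injEq]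
    constructor
    · rintro rfl
      cases b <;> cases c <;> simp
    · rintro (⟨h, _⟩ | ⟨h, _⟩) <;> exact h.symm

theorem up_top {V : Type} (L : Lay V) (ax : L.Ax) (Q : V → Prop)
    (hu : ∀ v k, L.up v k → (Q v ↔ Q k)) :
    ∀ (n : ℕ) (v : V), (L.r1 - L.row v).toNat = n → ∃ w, L.row w = L.r1 ∧ (Q v ↔ Q w) := by
  intro n
  induction n with
  | zero =>
    intro v hv
    have h := (ax.bnd v).2
    exact ⟨v, by omega, Iff.rfl⟩
  | succ n ih =>
    intro v hv
    have h : L.row v < L.r1 := by omega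
    obtain ⟨k, ⟨hk, _⟩, _⟩ := ax.ul v h
    have hr := ax.up_row v k hk
    obtain ⟨w, hw, hq⟩ := ih k (by omega)
    exact ⟨w, hw, (hu v k hk).trans hq⟩

theorem all_of_one {V : Type} (L : Lay V) (ax : L.Ax) (Q : V → Prop)
    (hu : ∀ v k, L.up v k → (Q v ↔ Q k)) (he : ∀ v, Q v → Q (L.e v)) (v₀ : V) (h₀ : Q v₀) :
    ∀ v, Q v := by
  intro v
  obtain ⟨w₀, hw₀, hq₀⟩ := up_top L ax Q hu _ v₀ rfl
  obtain ⟨w, hw, hq⟩ := up_top L ax Q hu _ v rfl
  obtain ⟨n, hn⟩ := ax.cyc w₀ w (by rw [hw₀, hw])
  have key : ∀ m : ℕ, Q ((L.e)^[m] w₀) := by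
    intro m
    induction m with
    | zero => exact hq₀.1 h₀
    | succ m ih => rw [Function.iterate_succ_apply']; exact he _ ih
  rw [hq, ← hn]
  exact key n

theorem laypm (h1 : StmtPhi) (h2 : StmtPhiV) (h3 : StmtPhiF) : StmtLayPM := by
  intro V _ L ax
  obtain ⟨φ, hφ, hv⟩ := h1 V L ax
  obtain ⟨F, hF, hFc⟩ := h3 V L ax φ hφ
  have hV := h2 V L ax φ hφ hv
  have hsa : (φ * L.al) * L.al = φ := by
    ext1 d
    simp [Equiv.Perm.mul_apply, al_al]
  have hvt : ∀ v, L.vt (Sum.inl (v, true)) = v := fun v => rfl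
  let M : PM (DL L) V (V ⊕ {p : V × V // L.up p.1 p.2}) ({p : V × V // L.up p.1 p.2} ⊕ Bool) :=
    { σ := φ * L.al
      α := L.al
      vt := L.vt
      ed := edg L
      fc := F
      α_inv := al_al L
      α_ne := al_ne L
      vt_iff := hV
      ed_iff := edg_iff L
      fc_iff := by
        intro d e
        rw [hsa]
        exact hFc d e
      vt_surj := fun v => ⟨Sum.inl (v, true), rfl⟩
      ed_surj := by
        rintro (v | p)
        · exact ⟨Sum.inl (v, true), rfl⟩
        · exact ⟨Sum.inr (p, true), rfl⟩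
      fc_surj := hF
      conn := by
        rintro P ⟨d₀, hd₀⟩ hσ hα
        have hpow : ∀ (n : ℕ) (d : DL L), P d → P (((φ * L.al) ^ n) d) := by
          intro n
          induction n with
          | zero => intro d hd; simpa using hd
          | succ n ih =>
            intro d hd
            rw [pow_succ, Equiv.Perm.mul_apply]
            exact ih _ (hσ d hd)
        have hvx : ∀ d e, L.vt d = L.vt e → P d → P e := by
          intro d e hde hd
          obtain ⟨i, _, _, hi⟩ := ((hV d e).1 hde).exists_pow_eq''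
          rw [← hi]
          exact hpow i d hd
        have hmove : ∀ d, (∀ e, L.vt e = L.vt d → P e) → (∀ e, L.vt e = L.vt (L.al d) → P e) := by
          intro d hd e he
          exact hvx (L.al d) e he.symm (hα d (hd d rfl))
        have hall := all_of_one L ax (fun v => ∀ e, L.vt e = v → P e)
          (by
            intro v k hk
            constructor
            · intro h
              exact hmove (Sum.inr (⟨(v, k), hk⟩, true)) h
            · intro h
              exact hmove (Sum.inr (⟨(v, k), hk⟩, false)) h)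
          (by
            intro v h
            exact hmove (Sum.inl (v, true)) h)
          (L.vt d₀) (by
            intro e he
            exact hvx d₀ e he.symm hd₀)
        intro d
        exact hall (L.vt d) d rfl
      euler := by
        simp only [Fintype.card_sum, Fintype.card_bool]
        omega }
  have hph : ∀ d, ph M d = φ d := by
    intro d
    change (φ * L.al) (L.al d) = φ d
    simp [Equiv.Perm.mul_apply, al_al]
  refine ⟨V ⊕ {p : V × V // L.up p.1 p.2}, {p : V × V // L.up p.1 p.2} ⊕ Bool, inferInstance,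
    inferInstance, M, fun v => Sum.inl (v, true), fun v => Sum.inl (v, false),
    fun v k => if h : L.up v k then Sum.inr (⟨(v, k), h⟩, true) else Sum.inl (v, true),
    fun v k => if h : L.up v k then Sum.inr (⟨(v, k), h⟩, false) else Sum.inl (v, true), ?_⟩
  constructor
  · intro v; rfl
  · intro v; rfl
  · intro v k h
    rw [dif_pos h]; rfl
  · intro v k h
    rw [dif_pos h]; rfl
  · intro v; rfl
  · intro v k h
    rw [dif_pos h, dif_pos h]; rfl
  · rintro (⟨v, b⟩ | ⟨⟨⟨v, k⟩, h⟩, b⟩)
    · cases b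
      · exact Or.inr (Or.inl ⟨v, rfl⟩)
      · exact Or.inl ⟨v, rfl⟩
    · have h' : L.up v k := h
      cases b
      · refine Or.inr (Or.inr (Or.inr ⟨v, k, h', ?_⟩))
        rw [dif_pos h']
      · refine Or.inr (Or.inr (Or.inl ⟨v, k, h', ?_⟩))
        rw [dif_pos h']
  · intro v h
    rw [hph]; exact hφ.E1 v h
  · intro v k a b
    rw [hph, dif_pos a]; exact hφ.E2 v k a b
  · intro v h
    rw [hph]; exact hφ.W1 v h
  · intro u v a b
    rw [hph, dif_pos a]; exact hφ.W2 u v a b
  · intro v k a b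
    rw [hph, dif_pos a, dif_pos b]; exact hφ.U1 v k a b
  · intro v k a b
    rw [hph, dif_pos a]; exact hφ.U2 v k a b
  · intro v k a b
    rw [hph, dif_pos a, dif_pos b]; exact hφ.N1 v k a b
  · intro v k a b
    rw [hph, dif_pos a]; exact hφ.N2 v k a b

end Pool.Agent.Helper34.UB
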